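import Pool.Agent.H1.TB.Glue

set_option autoImplicit false

/-! # The strong monodromy conjecture, topological version: all the germs of quadric bundles over lines

Let `f ∈ ℂ[x_1, …, x_n]`, `f ≠ 0`, be a sum, in separate variables, of polynomials of the form

`c(t) + ∑_j b_j(t) x_j + ∑_{j,j'} q_{j,j'}(t) x_j x_{j'} + ∑_i e_i(t) ∏_j z_{i,j} ^ a_{i,j}`            (*)

with ARBITRARY polynomials `c, b_j, q_{j,j'}, e_i ∈ ℂ[t]` and exponents `a_{i,j} ≥ 1`. For instance `f` is any
polynomial of degree at most two in all but one of its variables (a quadric bundle over the line, whose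
discriminant and degenerate fibres are arbitrary: `f` may be reducible and non-reduced, with singular loci of
any dimension), or a Thom-Sebastiani sum of such polynomials.

For every zero `P` of `f` and every pole `s₀` of the local topological zeta function of `f` at `P`, we prove
that `b(s₀) = 0` for `b = b_{f,P}` and `b = b_f`. The global topological zeta function of `f` is
`c₀ + ∑_t χ_t Z_t` where `Z_t` is the local zeta function at a point `P_t` of the stratum `S_t` of a
suitable finite stratification of `{f = 0}`, and `χ_t = χ(S_t)`, `c₀ = χ(ℂ ^ n ∖ {f = 0})`; the second part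
of the theorem is for such sums.

Method (`Pool/Agent/H1/QB`, `Pool/Agent/H1/TB`). At every zero some unit times `f` is
`∑_i U_i ∏_k l_k ^ M_{i,k} ∏_{v ∈ V_i} ξ_v ^ a_v + ∑_{k ∈ A} W_k l_k ^ n_k`, where the `l_k`, `ξ_v` are part of
a system of local coordinates, the `U_i`, `W_k` are units, and for each `i` at most one of the `M_{i,k}`
is nonzero (completion of squares over the discrete valuation ring of the line). The exponents are such that
all the units can be absorbed by a formal change of the coordinates. So the germ of `f` is in the class of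
germs of the library (`Pool.Agent.Q57.MD.Tower`), for which the conjecture holds. -/

namespace Pool.Agent.Results.MP_504089_ag.QuadricBundleGerms

open MvPolynomial
open Pool.Agent.H1.TB (Bundles)
open Pool.Agent.Q49.CO (trn)
open Pool.Agent.W428.MOT (MK Lu)
open Pool.Agent.TH192.MT (zetaJ)
open Pool.Agent.TH192.MU (IsTopZeta)
open Pool.Agent.H628R4.TP (IsBFunction IsLocalBFunction)

/-- `P` is a zero of `f` and `Z` is the local topological zeta function of `f` at `P`
(`IsTopZeta E ε (zetaJ (f (P + ·))) Z`: for `s = 1, 2, …`, `Z(s)` is the value under `ε` of the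
local motivic zeta function of `f` at `P` and `T = 𝕃 ^ (-s)`, after a realisation `E` with values in a
domain `R`, where `ε (E 𝕃) = 1` and `E 𝕃 ≠ 1`; for instance the Euler characteristic, from the
Hodge-Deligne polynomials). -/
def LocTop {R : Type} [CommRing R] (E : MK ℂ →+* R) (ε : R →+* ℂ) {n : ℕ}
    (f : MvPolynomial (Fin n) ℂ) (P : Fin n → ℂ) (Z : RatFunc ℂ) : Prop :=
  eval P f = 0 ∧ IsTopZeta E ε (zetaJ fun _ : Fin 1 => trn P f) Z

/-- The conjecture for the germs of `f`: if `Z` is the local topological zeta function of `f` at the zero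
`P`, `s₀` is a pole of `Z`, and `b` satisfies a functional equation for the germ of `f` at `P`
(`IsLocalBFunction`) or for `f` (`IsBFunction`), then `b(s₀) = 0`. -/
def StrongGerms {R : Type} [CommRing R] (E : MK ℂ →+* R) (ε : R →+* ℂ) {n : ℕ}
    (f : MvPolynomial (Fin n) ℂ) : Prop :=
  ∀ (P : Fin n → ℂ) (Z : RatFunc ℂ), LocTop E ε f P Z → ∀ s₀ : ℂ, Z.denom.eval s₀ = 0 →
    ∀ b : Polynomial ℂ, (IsLocalBFunction (trn P f) b ∨ IsBFunction f b) → b.eval s₀ = 0

/-- If `Z_t` is the local topological zeta function of `f` at the zero `P_t`, for `t` in a finite set, `s₀`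
is a pole of `c₀ + ∑_t χ_t Z_t` and `b(s) f ^ s = P(s) f ^ (s + 1)`, then `b(s₀) = 0`. -/
def StrongSums {R : Type} [CommRing R] (E : MK ℂ →+* R) (ε : R →+* ℂ) {n : ℕ}
    (f : MvPolynomial (Fin n) ℂ) : Prop :=
  ∀ (m : ℕ) (P : Fin m → Fin n → ℂ) (Z : Fin m → RatFunc ℂ), (∀ t, LocTop E ε f (P t) (Z t)) →
    ∀ (c₀ : ℂ) (χ : Fin m → ℂ) (s₀ : ℂ),
    (RatFunc.C c₀ + ∑ t, RatFunc.C (χ t) * Z t).denom.eval s₀ = 0 →
    ∀ b : Polynomial ℂ, IsBFunction f b → b.eval s₀ = 0

/-- **The strong monodromy conjecture for the germs of sums of quadric bundles over lines**, and for all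
the sums `c₀ + ∑_t χ_t Z_t` of their local topological zeta functions. Here `A` are the data of `f`
(`A.poly` is the sum of the polynomials (*)) and `e` gives the names of the variables. -/
theorem result {n : ℕ} (A : Bundles) (hA : A.poly ≠ 0) (e : A.Var ≃ Fin n)
    {R : Type} [CommRing R] [IsDomain R] (E : MK ℂ →+* R)
    (ε : R →+* ℂ) (hε : ε (E ((Lu ℂ : (MK ℂ)ˣ) : MK ℂ)) = 1)
    (hE : E ((Lu ℂ : (MK ℂ)ˣ) : MK ℂ) ≠ 1) :
    StrongGerms E ε (rename e A.poly) ∧ StrongSums E ε (rename e A.poly) := by
  have h1 : StrongGerms E ε (rename e A.poly) := fun P Z hZ s₀ hs b hb =>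
    Pool.Agent.H1.TB.loc_one E ε hε hE A hA e P hZ.1 Z hZ.2 s₀ hs b hb
  refine ⟨h1, fun m P Z hZ c₀ χ s₀ hs b hb => ?_⟩
  rcases Pool.Agent.H1.TB.denom_add _ _ s₀ hs with h2 | h2
  · rw [RatFunc.denom_C, Polynomial.eval_one] at h2
    exact absurd h2 one_ne_zero
  · obtain ⟨t, -, h3⟩ := Pool.Agent.H1.TB.denom_sum _ _ s₀ h2
    exact h1 (P t) (Z t) (hZ t) s₀ (Pool.Agent.H1.TB.denom_const_mul _ _ s₀ h3) b
      (Or.inr hb)

end Pool.Agent.Results.MP_504089_ag.QuadricBundleGerms
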