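import Pool.Agent.H1.VT.Cls

/-!
# The strong monodromy conjecture, topological version: a class of polynomials

We prove Q1 for all polynomials `f` such that the ideal `(f)` is in the least class of ideals of polynomial
rings (in any number of variables) which

* contains `(g)` for all polynomials `g ≠ 0` of degree at most two in all but one variable,
  `g = c(t) + ∑_j b_j(t) x_j + ∑_(j, k) q_jk(t) x_j x_k` with ARBITRARY `c, b_j, q_jk ∈ ℂ[t]` (any family of
  affine quadrics over the line, with arbitrary degenerate fibres; `g` may be reducible and non-reduced, and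
  its singular locus may have any dimension),
* contains `(g)` for all polynomials `g ≠ 0` with affinely independent exponents,
* with `I ⊂ ℂ[x]` and `J ⊂ ℂ[y]` contains the ideals `I + J` and `I J` of `ℂ[x, y]` (separate variables),
* with `I` contains the powers `I ^ a`, `a ≥ 1`, and all the images of `I` under the automorphisms of the
  polynomial ring,
* with `(f_1, …, f_r)` contains the hypersurface `(∑_j y_j f_j(x))` with new variables `y_j`.

For instance `f = ∏_k g_k ^ (a_k)` in separate variables, `f = ∑_k y_k g_k` and
`f = ∑_(j, k) y_jk g_j h_k`, with polynomials `g_j, h_k` of the first two kinds in separate variables.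

Method. For sums of ideals the zeta function is not determined by the zeta functions of the summands; the
series `V_I(T) = ∑_N μ(ord I ≥ N) T ^ N` of the motivic volumes multiplies coefficientwise. So everything is
proved for the `V_I`, whose rationality with the given denominators is stronger than that of the zeta
function `((V_I(0) - (1 - T) V_I(T)) / T)`.

(1) `Pool/Agent/H1/VS`. Affinely independent exponents. The volumes of `{ord f ≥ N}` over a constructible set
are sums over the strata of the Newton polyhedron; the classes of the strata satisfy linear relations by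
nondegeneracy, and the resulting combination of the series of the cones is one of universal series, in
which all the rays but those with candidate poles `-ν/N` which are roots cancel, with the exception of
one factor `1 - T` which is cancelled by these relations.

(2) `Pool/Agent/H1/TB`, `Pool/Agent/H1/VT`. Quadric bundles. Along a fibre `t = t₀` the function is, up to
units, `∑_j t ^ (m_j) y_j ^ (e_j) + t ^ k`, `e_j ∈ {1, 2}`, where the `y_j` restrict to linearly independent affine
functions (completing squares over the discrete valuation ring); units have roots modulo `t ^ L`, so the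
sets of `L`-jets are those of a polynomial with affinely independent exponents. Its poles are roots of all
the `b` at some point, which can be moved into the fibre by a one-parameter group and then to a point of the
fibre for `g` by a formal change of coordinates. Over the other points of the line `{g = 0}` is smooth or
`g` is a relative cone.

(3) `Pool/Agent/H1/VT/Ops`, `Aut`, `Cls`. The operations: powers (`V_(I ^ a)` has the coefficients
`V_⌈N/a⌉`), automorphisms, other generators; sums, products and hypersurfaces are in the library.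
-/

set_option autoImplicit false

namespace Pool.Agent.Results.MP_504089_ag.QuadricClassGlobal

open MvPolynomial Pool.Agent.H1.VT
open Pool.Agent.Q57.MC (zetaId_one locEq1_of_eq top_poles sf_forced)
open Pool.Agent.W428.MOT (MK Lu)
open Pool.Agent.TH192.MT (exists_meas zetaM)
open Pool.Agent.TH192.MU (IsTopZeta)
open Pool.Agent.H628R4.TP (IsBFunction)

/-- `f` has degree at most two in the variables other than `x_t`: all its monomials
`∏ x_i ^ (m_i)` have `∑_(i ≠ t) m_i ≤ 2`. -/
def QuadricOverLine {n : ℕ} (t : Fin n) (f : MvPolynomial (Fin n) ℂ) : Prop :=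
  ∀ m ∈ f.support, ∑ i ∈ Finset.univ.erase t, m i ≤ 2

/-- **The class of ideals.** -/
inductive Built : (n : ℕ) → Ideal (MvPolynomial (Fin n) ℂ) → Prop
  /-- the ideals `(f)` for the polynomials `f ≠ 0` of degree at most two in the variables other than
  `x_t`, for some `t` -/
  | quadrics {n : ℕ} (t : Fin n) (f : MvPolynomial (Fin n) ℂ) (hf : QuadricOverLine t f)
      (h0 : f ≠ 0) : Built n (Ideal.span {f})
  /-- the ideals `(∑_j c_j x ^ (v_j))` with affinely independent exponents `v_j` and `c_j ≠ 0` -/
  | sparse {n r : ℕ} (hr : 0 < r) (v : Fin r → Fin n → ℕ)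
      (hv : AffineIndependent ℚ fun j i => (v j i : ℚ)) (c : Fin r → ℂ) (hc : ∀ j, c j ≠ 0) :
      Built n (Ideal.span {∑ j, C (c j) * ∏ i, X i ^ v j i})
  /-- the sum of an ideal in `x_1, …, x_n` and an ideal in `x_(n + 1), …, x_(n + m)` -/
  | sum {n m : ℕ} {I : Ideal (MvPolynomial (Fin n) ℂ)} {J : Ideal (MvPolynomial (Fin m) ℂ)}
      (hI : Built n I) (hJ : Built m J) :
      Built (n + m) (I.map (rename (Fin.castAdd m)) ⊔ J.map (rename (Fin.natAdd n)))
  /-- the product of an ideal in `x_1, …, x_n` and an ideal in `x_(n + 1), …, x_(n + m)` -/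
  | mul {n m : ℕ} {I : Ideal (MvPolynomial (Fin n) ℂ)} {J : Ideal (MvPolynomial (Fin m) ℂ)}
      (hI : Built n I) (hJ : Built m J) :
      Built (n + m) (I.map (rename (Fin.castAdd m)) * J.map (rename (Fin.natAdd n)))
  /-- the powers `I ^ a`, `a ≥ 1` -/
  | pow {n : ℕ} {I : Ideal (MvPolynomial (Fin n) ℂ)} (a : ℕ) (ha : 1 ≤ a) (hI : Built n I) :
      Built n (I ^ a)
  /-- the ideal `(∑_j y_j f_j(x))` with new variables `y_1, …, y_r`, for `(f_1, …, f_r)` in the class -/
  | hyp {n r : ℕ} (f : Fin r → MvPolynomial (Fin n) ℂ)
      (hf : Built n (Ideal.span (Set.range f))) :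
      Built (n + r) (Ideal.span {∑ j, X (Fin.natAdd n j) * rename (Fin.castAdd r) (f j)})
  /-- the images under the automorphisms of the polynomial ring -/
  | aut {n : ℕ} {I : Ideal (MvPolynomial (Fin n) ℂ)}
      (φ : MvPolynomial (Fin n) ℂ ≃ₐ[ℂ] MvPolynomial (Fin n) ℂ) (hI : Built n I) :
      Built n (I.map φ)

/-- the induction -/
theorem good_of_built {n : ℕ} {I : Ideal (MvPolynomial (Fin n) ℂ)} (hI : Built n I)
    {M : Pool.Agent.W428.MOT.Meas ℂ (MK ℂ)} (hL : M.L = ((Lu ℂ : (MK ℂ)ˣ) : MK ℂ)) :
    Good M I := by
  induction hI with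
  | quadrics t f hf h0 => exact good_quadrics hL t f hf h0
  | sparse hr v hv c hc => exact good_sparse hL hr v hv c hc
  | sum _ _ ihI ihJ => exact good_sum hL ihI ihJ
  | mul _ _ ihI ihJ => exact good_mul hL ihI ihJ
  | pow a ha _ ih => exact good_pow hL a ha ih
  | hyp f _ ih => exact good_hyp hL f ih
  | aut φ _ ih => exact good_aut φ ih

/-- **Q1 for the polynomials of the class.** Let `(f)` be in the class.

`Z` is the topological zeta function of `f` (`IsTopZeta E ε (zetaM f univ {c ≠ 0}) Z`: for `s = 1, 2, …`,
`Z(s)` is the value under `ε` of the motivic zeta function of `f` at `T = 𝕃 ^ (-s)`, after a realisation `E`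
with values in a domain `R`, where `ε (E 𝕃) = 1` and `E 𝕃 ≠ 1`; for instance the Euler characteristic, from
the Hodge-Deligne polynomials), `s₀` is a pole of `Z`, and `b` satisfies `b(s) f ^ s = P(s) f ^ (s + 1)`,
`P(s)` in the Weyl algebra, polynomial in `s` (for instance `b = b_f`). Then `b(s₀) = 0`. -/
theorem result {n : ℕ} {f : MvPolynomial (Fin n) ℂ} (hf : Built n (Ideal.span {f}))
    {R : Type} [CommRing R] [IsDomain R] (E : MK ℂ →+* R) (ε : R →+* ℂ)
    (hε : ε (E ((Lu ℂ : (MK ℂ)ˣ) : MK ℂ)) = 1) (hE : E ((Lu ℂ : (MK ℂ)ˣ) : MK ℂ) ≠ 1)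
    (Z : RatFunc ℂ) (hZ : IsTopZeta E ε (zetaM f Set.univ {c | c ≠ 0}) Z) (s₀ : ℂ)
    (hs : Z.denom.eval s₀ = 0) (b : Polynomial ℂ) (hb : IsBFunction f b) : b.eval s₀ = 0 := by
  classical
  rw [← zetaId_one] at hZ
  obtain ⟨M, hL, hχ⟩ := exists_meas ℂ
  obtain ⟨S, hS, hz⟩ := good_main hL hχ (good_of_built hf hL) (fun _ : Fin 1 => f)
    (by rw [Set.range_const])
  obtain ⟨q, hq, rfl⟩ := top_poles E ε hε hE _ (fun q hq => ⟨(hS q hq).1, (hS q hq).2.1⟩) _ hz Z
    hZ s₀ hs
  obtain ⟨p, hp⟩ := (hS q hq).2.2
  exact sf_forced hp b (locEq1_of_eq _ b hb)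

end Pool.Agent.Results.MP_504089_ag.QuadricClassGlobal
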